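import Pool.Agent.helper62.DP8.Spec

set_option autoImplicit false

namespace Pool.Agent.helper62.DP8

theorem DBL_core (hCOL : COL_stmt) (hDGE : DGE_stmt) (V : Type) [DecidableEq V] (H : SimpleGraph V) (T : Finset V) (s : V → ℕ)
    (a b w : V) (ha : a ∈ T) (hb : b ∈ T) (hab : a ≠ b) (haw : H.Adj a w) (hbw : H.Adj b w) (hnab : ¬ H.Adj a b)
    (hP : Pc H ((T.erase a).erase b) (fun u => if u = w then s u + 1 else s u))
    (W : Type) (R : W → W → Prop) (L : V → Finset W) (hW : Nonempty W) (hC : Cov H R L)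
    (hL : ∀ v ∈ T, dg H T v + s v ≤ (L v).card + 1) (x : W) (hx : x ∈ L a) (y : W) (hy : y ∈ L b)
    (hw : ∀ M : Finset W, (∀ z, z ∈ M ↔ z ∈ L w ∧ ¬ R x z ∧ ¬ R y z) → dg H T w + s w ≤ M.card + 2) : Good R T L := by
  obtain ⟨L1, c1, m1, g1, n1, l1⟩ := hCOL V H W R L hC a x hx
  have hLb : L1 b = L b := n1 b hab.symm hnab
  have hy1 : y ∈ L1 b := by rw [hLb]; exact hy
  obtain ⟨L2, c2, m2, g2, n2, l2⟩ := hCOL V H W R L1 c1 b y hy1
  have hwa : w ≠ a := haw.ne'
  have hwb : w ≠ b := hbw.ne'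
  have hb1 : b ∈ T.erase a := Finset.mem_erase.mpr ⟨hab.symm, hb⟩
  have hM : dg H T w + s w ≤ (L2 w).card + 2 := by
    apply hw
    intro z
    rw [m2, m1]
    constructor
    · rintro ⟨⟨h1, h2⟩, h3⟩
      exact ⟨h1, h2.resolve_left hwa, h3.resolve_left hwb⟩
    · rintro ⟨h1, h2, h3⟩
      exact ⟨⟨h1, Or.inr h2⟩, Or.inr h3⟩
  apply g1 T ha
  apply g2 (T.erase a) hb1
  apply hP W R L2 hW c2
  intro v hv
  classical
  have hvb : v ≠ b := (Finset.mem_erase.mp hv).1
  have hva : v ≠ a := (Finset.mem_erase.mp (Finset.mem_erase.mp hv).2).1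
  have hvT : v ∈ T := (Finset.mem_erase.mp (Finset.mem_erase.mp hv).2).2
  have e1 : dg H (T.erase a) v + (if H.Adj v a then 1 else 0) = dg H T v := by
    by_cases h : H.Adj v a
    · rw [if_pos h]; exact (hDGE V H T v a).1 h ha
    · rw [if_neg h]; exact (hDGE V H T v a).2 h
  have e2 : dg H ((T.erase a).erase b) v + (if H.Adj v b then 1 else 0) = dg H (T.erase a) v := by
    by_cases h : H.Adj v b
    · rw [if_pos h]; exact (hDGE V H (T.erase a) v b).1 h hb1
    · rw [if_neg h]; exact (hDGE V H (T.erase a) v b).2 h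
  by_cases hvw : v = w
  · subst hvw
    rw [if_pos haw.symm] at e1
    rw [if_pos hbw.symm] at e2
    simp only [if_true]
    omega
  · simp only [if_neg hvw]
    have f1 : (L v).card ≤ (L1 v).card + (if H.Adj v a then 1 else 0) := by
      by_cases h : H.Adj v a
      · rw [if_pos h]; exact l1 v hva
      · rw [if_neg h, n1 v hva (fun h' => h h'.symm)]; omega
    have f2 : (L1 v).card ≤ (L2 v).card + (if H.Adj v b then 1 else 0) := by
      by_cases h : H.Adj v b
      · rw [if_pos h]; exact l2 v hvb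
      · rw [if_neg h, n2 v hvb (fun h' => h h'.symm)]; omega
    have := hL v hvT
    omega

theorem DBL_card {W : Type} [DecidableEq W] (M L : Finset W) (z : W) (h : L.erase z ⊆ M) : L.card ≤ M.card + 1 := by
  have h1 := Finset.card_le_card h
  have h2 : L.card - 1 ≤ (L.erase z).card := Finset.pred_card_le_card_erase
  omega

theorem DBL_card2 {W : Type} [DecidableEq W] (M L : Finset W) (P : W → Prop) (hu : ∀ x ∈ L, ∀ y ∈ L, P x → P y → x = y)
    (h : ∀ x ∈ L, ¬ P x → x ∈ M) : L.card ≤ M.card + 1 := by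
  by_cases h0 : ∃ z ∈ L, P z
  · obtain ⟨z, hz, hPz⟩ := h0
    apply DBL_card M L z
    intro x hx
    have hx1 := Finset.mem_erase.mp hx
    apply h x hx1.2
    intro hPx
    exact hx1.1 (hu x hx1.2 z hz hPx hPz)
  · have h1 : L ⊆ M := by
      intro x hx
      apply h x hx
      intro hPx
      exact h0 ⟨x, hx, hPx⟩
    have := Finset.card_le_card h1
    omega

theorem DBL_card3 {W : Type} [DecidableEq W] (M L : Finset W) (P Q : W → Prop) (hu : ∀ x ∈ L, ∀ y ∈ L, P x → P y → x = y)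
    (hv : ∀ x ∈ L, ∀ y ∈ L, Q x → Q y → x = y)
    (h : ∀ x ∈ L, ¬ P x → ¬ Q x → x ∈ M) : L.card ≤ M.card + 2 := by
  classical
  have h1 := DBL_card2 (L.filter (fun x => ¬ P x)) L P hu (fun x hx hP => Finset.mem_filter.mpr ⟨hx, hP⟩)
  have h2 := DBL_card2 M (L.filter (fun x => ¬ P x)) Q
    (fun x hx y hy => hv x (Finset.mem_filter.mp hx).1 y (Finset.mem_filter.mp hy).1)
    (fun x hx hQ => h x (Finset.mem_filter.mp hx).1 (Finset.mem_filter.mp hx).2 hQ)
  omega

theorem DBL (hCOL : COL_stmt) (hDGE : DGE_stmt) : DBL_stmt := by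
  intro V _ H T s a b w ha hb hwT hab haw hbw hnab h2a h2b hsum hP W R L hW hC hL
  classical
  have hLa := hL a ha
  have hLb := hL b hb
  have hLw := hL w hwT
  have hwa : w ≠ a := haw.ne'
  have hwb : w ≠ b := hbw.ne'
  have hna : (L a).Nonempty := Finset.card_pos.mp (by omega)
  have hnb : (L b).Nonempty := Finset.card_pos.mp (by omega)
  obtain ⟨x0, hx0⟩ := hna
  obtain ⟨y0, hy0⟩ := hnb
  have main := DBL_core hCOL hDGE V H T s a b w ha hb hab haw hbw hnab hP W R L hW hC hL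
  have ux : ∀ x ∈ L a, ∀ z ∈ L w, ∀ z' ∈ L w, R x z → R x z' → z = z' := fun x hx z hz z' hz' => hC.mat a w hwa.symm x hx z hz z' hz'
  have uy : ∀ y ∈ L b, ∀ z ∈ L w, ∀ z' ∈ L w, R y z → R y z' → z = z' := fun x hx z hz z' hz' => hC.mat b w hwb.symm x hx z hz z' hz'
  by_cases hA : dg H T w + s w ≤ (L w).card
  · apply main x0 hx0 y0 hy0
    intro M hM
    have := DBL_card3 M (L w) (fun z => R x0 z) (fun z => R y0 z) (ux x0 hx0) (uy y0 hy0)
      (fun z hz h1 h2 => (hM z).mpr ⟨hz, h1, h2⟩)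
    omega
  by_cases hB : ∃ x ∈ L a, ∀ z ∈ L w, ¬ R x z
  · obtain ⟨x, hx, hxz⟩ := hB
    apply main x hx y0 hy0
    intro M hM
    have := DBL_card2 M (L w) (fun z => R y0 z) (uy y0 hy0)
      (fun z hz h2 => (hM z).mpr ⟨hz, hxz z hz, h2⟩)
    omega
  by_cases hD : ∃ y ∈ L b, ∀ z ∈ L w, ¬ R y z
  · obtain ⟨y, hy, hyz⟩ := hD
    apply main x0 hx0 y hy
    intro M hM
    have := DBL_card2 M (L w) (fun z => R x0 z) (ux x0 hx0)
      (fun z hz h2 => (hM z).mpr ⟨hz, h2, hyz z hz⟩)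
    omega
  have hB' : ∀ x, ∃ z, x ∈ L a → z ∈ L w ∧ R x z := by
    intro x
    by_cases hx : x ∈ L a
    · by_contra hcon
      apply hB
      refine ⟨x, hx, fun z hz hR => hcon ⟨z, fun _ => ⟨hz, hR⟩⟩⟩
    · exact ⟨x, fun h => absurd h hx⟩
  have hD' : ∀ y, ∃ z, y ∈ L b → z ∈ L w ∧ R y z := by
    intro x
    by_cases hx : x ∈ L b
    · by_contra hcon
      apply hD
      refine ⟨x, hx, fun z hz hR => hcon ⟨z, fun _ => ⟨hz, hR⟩⟩⟩
    · exact ⟨x, fun h => absurd h hx⟩
  choose p hp using hB'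
  choose q hq using hD'
  have cA : ((L a).image p).card = (L a).card := by
    apply Finset.card_image_of_injOn
    intro x hx x' hx' he
    have h1 := hp x hx
    have h2 := hp x' hx'
    have he' : p x = p x' := he
    rw [← he'] at h2
    exact hC.mat w a hwa (p x) h1.1 x hx x' hx' (hC.symm _ _ h1.2) (hC.symm _ _ h2.2)
  have cB : ((L b).image q).card = (L b).card := by
    apply Finset.card_image_of_injOn
    intro x hx x' hx' he
    have h1 := hq x hx
    have h2 := hq x' hx'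
    have he' : q x = q x' := he
    rw [← he'] at h2
    exact hC.mat w b hwb (q x) h1.1 x hx x' hx' (hC.symm _ _ h1.2) (hC.symm _ _ h2.2)
  have hmeet : ∃ z, z ∈ (L a).image p ∧ z ∈ (L b).image q := by
    by_contra hcon
    have hdis : Disjoint ((L a).image p) ((L b).image q) := by
      rw [Finset.disjoint_left]
      intro z h1 h2
      exact hcon ⟨z, h1, h2⟩
    have hsub : (L a).image p ∪ (L b).image q ⊆ L w := by
      intro z hz
      rcases Finset.mem_union.mp hz with h | h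
      · obtain ⟨x, hx, rfl⟩ := Finset.mem_image.mp h
        exact (hp x hx).1
      · obtain ⟨x, hx, rfl⟩ := Finset.mem_image.mp h
        exact (hq x hx).1
    have h1 := Finset.card_le_card hsub
    rw [Finset.card_union_of_disjoint hdis, cA, cB] at h1
    omega
  obtain ⟨z, hz1, hz2⟩ := hmeet
  obtain ⟨x, hx, hxz⟩ := Finset.mem_image.mp hz1
  obtain ⟨y, hy, hyz⟩ := Finset.mem_image.mp hz2
  have rx := hp x hx
  have ry := hq y hy
  rw [hxz] at rx
  rw [hyz] at ry
  apply main x hx y hy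
  intro M hM
  have := DBL_card M (L w) z (by
    intro z' hz'
    have h' := Finset.mem_erase.mp hz'
    rw [hM]
    refine ⟨h'.2, fun hR => h'.1 (ux x hx z' h'.2 z rx.1 hR rx.2), fun hR => h'.1 (uy y hy z' h'.2 z ry.1 hR ry.2)⟩)
  omega

end Pool.Agent.helper62.DP8
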